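import Pool.Agent.T6.H73.SFT.MeasFin

/-!
# Borel, Baire measurable and measurable equivariant maps to subshifts of finite type

Idea. The second subshift `S₂` describes configurations of nested squares with walls and a diagonal;
the remaining cells are properly 2-coloured, and the colourings inside and outside of a wall are
independent. Local rules force every finite line of walls to belong to a perfect square, and
different squares are disjoint or strictly nested. If almost every cell (for a rotation of the
circle) lies in finitely many squares, then the 2-colouring outside the maximal squares gives every
row a parity, which contradicts ergodicity of an even rotation. In the category setting squares of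
one size recur syndetically, so all squares have bounded size: no Borel map. In the first subshift
`S₁` moreover the upper left half of each square has to be empty, so mass transport shows that
almost every cell lies in finitely many squares: no measurable map. Baire measurable solutions
exist for `S₁` (squares placed at isolated clusters), and measurable solutions for `S₂`
(squares placed at well chosen shifts of Borel maximal separated sets).
-/

set_option autoImplicit false

namespace Pool.Agent.Results.MP_6540cb_lc.NoneEquivalent

open Pool.Agent.T6.H73.SFT

/-- **None of the equivalences (i) ⇔ (ii), (i) ⇔ (iii), (ii) ⇔ (iii) holds for all subshifts of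
finite type of `ℤ^d`, for every `d ≥ 2`.** There is a subshift of finite type with (ii), without
(iii) and without (i), and there is a subshift of finite type with (ii) and (iii), without (i). -/
theorem result (d : ℕ) (hd : 2 ≤ d) :
    (∃ (n : ℕ) (S : Set (Zd d → Fin n)),
      IsSFT S ∧ HasBaire S ∧ ¬ HasMeasure S ∧ ¬ HasBorel S) ∧
    (∃ (n : ℕ) (S : Set (Zd d → Fin n)),
      IsSFT S ∧ HasBaire S ∧ HasMeasure S ∧ ¬ HasBorel S) := by
  refine ⟨⟨_, MP6540.S1 d, MP6540.isSFT_block _, MP6540.baire_S1 hd, MP6540.not_measure_S1 hd,
    fun h => MP6540.not_measure_S1 hd (MP6540.HasBorel.toMeasure h)⟩,
    ⟨_, MP6540.S2 d, MP6540.isSFT_block _, MP6540.baire_S2 hd, MP6540.measure_S2 hd,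
    MP6540.not_borel_S2 hd⟩⟩

/-- The σ-algebra on the free part is its Borel σ-algebra. -/
example (d : ℕ) : BorelSpace (freePart d) := inferInstance

/-- The σ-algebra on the configurations is their Borel σ-algebra. -/
example (d n : ℕ) : BorelSpace (Zd d → Fin n) := inferInstance

end Pool.Agent.Results.MP_6540cb_lc.NoneEquivalent
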